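import Pool.Agent.H37.UMD.Stmts

/-!
Ultimate matching, module STE: Stein's identity for the kernel `stk`.
-/

set_option autoImplicit false

open MeasureTheory ProbabilityTheory

namespace Pool.UMD

/-- The signed indicator of the interval between `0` and `s`. -/
noncomputable def STE_k (s t : ℝ) : ℝ := (if 0 < t ∧ t ≤ s then 1 else 0) -
  (if s < t ∧ t ≤ 0 then 1 else 0)

theorem STE_k_meas : Measurable (fun p : ℝ × ℝ => STE_k p.1 p.2) := by
  unfold STE_k
  refine Measurable.sub (Measurable.ite ?_ measurable_const measurable_const)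
    (Measurable.ite ?_ measurable_const measurable_const)
  · exact (measurableSet_lt measurable_const measurable_snd).inter
      (measurableSet_le measurable_snd measurable_fst)
  · exact (measurableSet_lt measurable_fst measurable_snd).inter
      (measurableSet_le measurable_snd measurable_const)

theorem STE_k_abs (s t : ℝ) : |STE_k s t| = (Set.uIoc 0 s).indicator (fun _ => (1 : ℝ)) t := by
  classical
  unfold STE_k
  rw [Set.indicator_apply]
  by_cases hs : 0 ≤ s
  · rw [Set.uIoc_of_le hs]
    have h2 : ¬ (s < t ∧ t ≤ 0) := fun h => by linarith [h.1, h.2]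
    rw [if_neg h2]
    by_cases h : 0 < t ∧ t ≤ s
    · rw [if_pos h, if_pos (show t ∈ Set.Ioc 0 s from h)]; norm_num
    · rw [if_neg h, if_neg (show ¬ t ∈ Set.Ioc 0 s from h)]; norm_num
  · push Not at hs
    rw [Set.uIoc_of_ge hs.le]
    have h2 : ¬ (0 < t ∧ t ≤ s) := fun h => by linarith [h.1, h.2]
    rw [if_neg h2]
    by_cases h : s < t ∧ t ≤ 0
    · rw [if_pos h, if_pos (show t ∈ Set.Ioc s 0 from h)]; norm_num
    · rw [if_neg h, if_neg (show ¬ t ∈ Set.Ioc s 0 from h)]; norm_num

theorem STE_k_int (s : ℝ) : Integrable (fun t => |STE_k s t|) := by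
  have h : (fun t => |STE_k s t|) = (Set.uIoc 0 s).indicator (fun _ => (1 : ℝ)) := by
    funext t; exact STE_k_abs s t
  rw [h]
  refine (integrable_indicator_iff measurableSet_uIoc).2 ?_
  refine integrableOn_const ?_
  rw [Set.uIoc]
  exact measure_Ioc_lt_top.ne

theorem STE_k_integral (s : ℝ) : ∫ t, |STE_k s t| = |s| := by
  have h : (fun t => |STE_k s t|) = (Set.uIoc 0 s).indicator (fun _ => (1 : ℝ)) := by
    funext t; exact STE_k_abs s t
  rw [h, integral_indicator measurableSet_uIoc, setIntegral_const]
  rw [Set.uIoc, Measure.real, Real.volume_Ioc]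
  rw [ENNReal.toReal_ofReal (by simp)]
  simp [max_sub_min_eq_abs]

theorem STE_ftc (r r' : ℝ → ℝ) (hr : ∀ g, HasDerivAt r (r' g) g) (hc : Continuous r') (s : ℝ) :
    ∫ t, STE_k s t * r' t = r s - r 0 := by
  have h1 : ∫ t in (0 : ℝ)..s, r' t = r s - r 0 :=
    intervalIntegral.integral_eq_sub_of_hasDerivAt (fun x _ => hr x) (hc.intervalIntegrable _ _)
  rw [← h1, intervalIntegral]
  rw [← integral_indicator measurableSet_Ioc, ← integral_indicator measurableSet_Ioc,
    ← integral_sub]
  · refine integral_congr_ae (Filter.Eventually.of_forall fun t => ?_)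
    simp only [STE_k, Set.indicator_apply, Set.mem_Ioc]
    split_ifs <;> ring
  · exact (integrable_indicator_iff measurableSet_Ioc).2
      (hc.integrableOn_Icc.mono_set Set.Ioc_subset_Icc_self)
  · exact (integrable_indicator_iff measurableSet_Ioc).2
      (hc.integrableOn_Icc.mono_set Set.Ioc_subset_Icc_self)

theorem STE_noAtoms : NullSingletonClass g1 := by
  have : (1 : NNReal) ≠ 0 := one_ne_zero
  exact nullSingletonClass_gaussianReal this

theorem STE_kernel (u : ℝ → ℝ) (hu : Measurable u) (M : ℝ) (hM : ∀ g, |u g| ≤ M) (t : ℝ)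
    (ht : t ≠ 0) :
    ∫ s, (u s - ∫ x, u x ∂g1) * STE_k s t ∂g1 = gaussianPDFReal 0 1 t * stk u t := by
  have := STE_noAtoms
  set c := ∫ x, u x ∂g1 with hc
  have hpdf : gaussianPDFReal 0 1 t ≠ 0 := (gaussianPDFReal_pos 0 1 t one_ne_zero).ne'
  rcases lt_or_gt_of_ne ht with h | h
  · rw [stk, if_neg (not_le.2 h)]
    rw [mul_neg, mul_div_cancel₀ _ hpdf]
    rw [← integral_indicator measurableSet_Iio, ← integral_neg]
    refine integral_congr_ae (Filter.Eventually.of_forall fun s => ?_)
    have h2 : ¬ (0 < t ∧ t ≤ s) := fun h' => by linarith [h'.1]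
    simp only [STE_k, if_neg h2, Set.indicator_apply, Set.mem_Iio]
    by_cases h3 : s < t
    · rw [if_pos ⟨h3, h.le⟩, if_pos h3]; ring
    · rw [if_neg (fun h' => h3 h'.1), if_neg h3]; ring
  · rw [stk, if_pos h.le]
    rw [mul_div_cancel₀ _ hpdf]
    rw [← integral_Ici_eq_integral_Ioi, ← integral_indicator measurableSet_Ici]
    refine integral_congr_ae (Filter.Eventually.of_forall fun s => ?_)
    have h2 : ¬ (s < t ∧ t ≤ 0) := fun h' => by linarith [h'.2]
    simp only [STE_k, if_neg h2, Set.indicator_apply, Set.mem_Ici]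
    by_cases h3 : t ≤ s
    · rw [if_pos ⟨h, h3⟩, if_pos h3]; ring
    · rw [if_neg (fun h' => h3 h'.2), if_neg h3]; ring

theorem sSte : SSte := by
  intro u r r' M hu hM hr hr'c hr'M
  set c := ∫ s, u s ∂g1 with hc
  have hM0 : 0 ≤ M := (abs_nonneg _).trans (hM 0)
  have hui : Integrable u g1 :=
    Integrable.of_bound hu.aestronglyMeasurable M (Filter.Eventually.of_forall fun x => by
      simpa using hM x)
  have hcM : |c| ≤ M := by
    have := norm_integral_le_of_norm_le_const (μ := g1) (f := u) (C := M)
      (Filter.Eventually.of_forall fun x => by simpa using hM x)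
    simpa using this
  have hv : ∀ s, |u s - c| ≤ 2 * M := fun s => by
    have := abs_sub (u s) c
    linarith [hM s]
  have hvm : Measurable (fun s => u s - c) := hu.sub_const c
  have hvi : Integrable (fun s => u s - c) g1 := hui.sub (integrable_const c)
  have hv0 : ∫ s, (u s - c) ∂g1 = 0 := by
    rw [integral_sub hui (integrable_const c)]
    simp [hc]
  have hr'm : Measurable r' := hr'c.measurable
  set F : ℝ × ℝ → ℝ := fun p => (u p.1 - c) * (STE_k p.1 p.2 * r' p.2) with hF
  have hFm : Measurable F :=
    (hvm.comp measurable_fst).mul (STE_k_meas.mul (hr'm.comp measurable_snd))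
  have hFb : ∀ s t, |F (s, t)| ≤ 2 * M * M * |STE_k s t| := by
    intro s t
    simp only [hF, abs_mul]
    have h1 : |u s - c| * (|STE_k s t| * |r' t|) ≤ 2 * M * (|STE_k s t| * M) :=
      mul_le_mul (hv s) (mul_le_mul_of_nonneg_left (hr'M t) (abs_nonneg _))
        (by positivity) (by linarith)
    linarith
  have hid : Integrable (fun s : ℝ => |s|) g1 := by
    have := (memLp_id_gaussianReal (μ := 0) (v := 1) 1).integrable (by norm_num)
    exact this.abs
  have hFi : Integrable F (g1.prod volume) := by
    rw [integrable_prod_iff hFm.aestronglyMeasurable]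
    constructor
    · refine Filter.Eventually.of_forall fun s => ?_
      refine Integrable.mono' ((STE_k_int s).const_mul (2 * M * M))
        (hFm.comp measurable_prodMk_left).aestronglyMeasurable
        (Filter.Eventually.of_forall fun t => ?_)
      rw [Real.norm_eq_abs]
      exact hFb s t
    · refine Integrable.mono' (hid.const_mul (2 * M * M))
        hFm.aestronglyMeasurable.norm.integral_prod_right'
        (Filter.Eventually.of_forall fun s => ?_)
      rw [Real.norm_eq_abs, abs_of_nonneg (integral_nonneg fun t => norm_nonneg _)]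
      have h1 : ∫ t, ‖F (s, t)‖ ≤ ∫ t, 2 * M * M * |STE_k s t| := by
        refine integral_mono_of_nonneg (Filter.Eventually.of_forall fun t => norm_nonneg _)
          ((STE_k_int s).const_mul _) (Filter.Eventually.of_forall fun t => ?_)
        simp only [Real.norm_eq_abs]
        exact hFb s t
      rwa [integral_const_mul, STE_k_integral] at h1
  have hinner : ∀ s, ∫ t, F (s, t) = (u s - c) * (r s - r 0) := by
    intro s
    simp only [hF]
    rw [integral_const_mul, STE_ftc r r' hr hr'c s]
  have hL1 : Integrable (fun s => (u s - c) * (r s - r 0)) g1 := by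
    have := hFi.integral_prod_left
    refine this.congr (Filter.Eventually.of_forall fun s => hinner s)
  have hL : ∫ s, (u s - c) * r s ∂g1 = ∫ s, (u s - c) * (r s - r 0) ∂g1 := by
    have h1 : ∀ s, (u s - c) * r s = (u s - c) * (r s - r 0) + r 0 * (u s - c) := fun s => by ring
    simp only [h1]
    rw [integral_add hL1 (hvi.const_mul (r 0)), integral_const_mul, hv0]
    ring
  rw [hL]
  have hswap : ∫ s, (u s - c) * (r s - r 0) ∂g1 = ∫ t, ∫ s, F (s, t) ∂g1 := by
    rw [← integral_integral_swap (f := fun s t => F (s, t)) hFi]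
    exact integral_congr_ae (Filter.Eventually.of_forall fun s => (hinner s).symm)
  rw [hswap, integral_gaussianReal_eq_integral_smul (one_ne_zero)]
  refine integral_congr_ae ?_
  have hae : ∀ᵐ t : ℝ, t ≠ 0 := by
    have : (volume : Measure ℝ) {0} = 0 := by simp
    exact compl_mem_ae_iff.2 this
  filter_upwards [hae] with t ht
  have h1 : ∫ s, F (s, t) ∂g1 = (∫ s, (u s - c) * STE_k s t ∂g1) * r' t := by
    rw [← integral_mul_const]
    refine integral_congr_ae (Filter.Eventually.of_forall fun s => ?_)
    simp only [hF]; ring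
  rw [h1, STE_kernel u hu M hM t ht]
  simp only [smul_eq_mul]
  ring

end Pool.UMD
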